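import Pool.Agent.H5.Fock

set_option autoImplicit false

open Finset Polynomial Pool.Agent.H5.Fock
open scoped ComplexConjugate ComplexOrder

namespace Pool.Agent.Results.MP_395ab6_co.Counter

lemma per2 (n : ℕ) (c d : Fin n → ℂ) :
    (Matrix.of fun i j => conj (c i) * c j + conj (d i) * d j).permanent.re =
      ∑ j ∈ range (n + 1), (j.factorial * (n - j).factorial : ℝ) *
        ‖(∏ i, (C (c i) * X + C (d i))).coeff j‖ ^ 2 := by
  have h1 := perm_gram n (fun i => ![c i, d i]) (fun i => ![c i, d i])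
  simp only [Fin.sum_univ_two, Matrix.cons_val_zero, Matrix.cons_val_one] at h1
  have h2 : ∏ i, ell ![c i, d i] = (∏ i, (C (c i) * X + C (d i))).homogenize n := by
    have := homogenize_finsetProd (s := univ) (p := fun i => C (c i) * X + C (d i))
      (n := fun _ => 1) fun i _ => natDegree_linear_le
    simp only [sum_const, card_univ, Fintype.card_fin, smul_eq_mul, mul_one] at this
    rw [this]
    refine prod_congr rfl fun i _ => ?_
    simp [ell, homogenize_X]
  rw [h1, h2]
  generalize ∏ i, (C (c i) * X + C (d i)) = p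
  rw [B_eq _ _ ((range (n + 1)).image fun j => Finsupp.single 0 j + Finsupp.single 1 (n - j)),
    sum_image, Complex.re_sum]
  · refine sum_congr rfl fun j hj => ?_
    have hj' : j + (n - j) = n := by
      have := mem_range.1 hj
      omega
    simp [coeff_homogenize, hj', w, Complex.conj_mul', ← Complex.ofReal_pow]
  · intro a _ b _ h
    simpa using DFunLike.congr_fun h 0
  · intro m hm
    have h3 := MvPolynomial.mem_support_iff.1 hm
    rw [coeff_homogenize] at h3
    have h4 : m 0 + m 1 = n := by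
      by_contra h
      exact h3 (if_neg h)
    refine mem_image.2 ⟨m 0, mem_range.2 (by omega), ?_⟩
    ext i
    fin_cases i
    · simp
    · simp
      omega

/-- The inequality fails for a rank two matrix of order `15`. -/
theorem result : ∃ (n : ℕ) (A : Matrix (Fin (n + 2)) (Fin (n + 2)) ℂ), A.PosSemidef ∧
    A.permanent.re < ∑ k : Fin (n + 1), ‖A 0 k.succ‖ ^ 2 *
      (A.submatrix (fun j : Fin n => (k.succAbove j).succ)
        (fun j : Fin n => (k.succAbove j).succ)).permanent.re := by
  obtain ⟨η, hη⟩ : ∃ η : ℂ, η ^ 2 + η + 1 = 0 := by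
    refine ⟨⟨-1 / 2, √3 / 2⟩, ?_⟩
    have := Real.mul_self_sqrt (show (0 : ℝ) ≤ 3 by norm_num)
    apply Complex.ext <;> simp [pow_two] <;> linarith
  have h3 : η ^ 3 = 1 := by linear_combination (η - 1) * hη
  have hn : ‖η‖ = 1 := by
    have := congrArg norm h3
    rw [norm_pow, norm_one] at this
    exact (pow_eq_one_iff_of_nonneg (norm_nonneg _) (by norm_num)).1 this
  let c : Fin 15 → ℂ := ![1, 3 / 2, 3 / 2 * η, 3 / 2 * η ^ 2, -(3 / 2), -(3 / 2 * η),
    -(3 / 2 * η ^ 2), 0, 0, 0, 0, 0, 0, 0, 0]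
  let d : Fin 15 → ℂ := ![0, 1, 1, 1, 1, 1, 1, 1, 1, 1, 1, 1, 1, 1, 1]
  have hd : ∀ i : Fin 14, d i.succ = 1 := fun i => by fin_cases i <;> rfl
  have hP : ∏ i : Fin 14, (C (c i.succ) * X + C (d i.succ)) = 1 - C ((3 / 2) ^ 6) * X ^ 6 := by
    have e1 : (C η) ^ 2 + C η + 1 = 0 := by simpa using congrArg C hη
    simp only [hd, Fin.prod_univ_succ, c]
    simp
    generalize C η = y at e1
    generalize (C (3 / 2) : ℂ[X]) = r
    linear_combination (-(y ^ 2 - y + 1) * (r * X) ^ 2 + y ^ 2 * (y ^ 2 - y + 1) * (r * X) ^ 4 -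
      (y - 1) * (1 + y ^ 3) * (r * X) ^ 6) * e1
  refine ⟨13, Matrix.of fun i j => conj (c i) * c j + conj (d i) * d j, ?_, ?_⟩
  · have := Matrix.posSemidef_conjTranspose_mul_self (Matrix.of fun (k : Fin 2) i => ![c i, d i] k)
    convert this using 1
    ext i j
    simp [Matrix.mul_apply]
  · have h4 : ∀ k : Fin 14, ‖c k.succ‖ = 3 / 2 → c k.succ ^ 6 = (3 / 2) ^ 6 →
        ((Matrix.of fun i j => conj (c i) * c j + conj (d i) * d j).submatrix
          (fun j : Fin 13 => (k.succAbove j).succ)
          (fun j : Fin 13 => (k.succAbove j).succ)).permanent.re =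
        ∑ j ∈ range 6, (j.factorial * (13 - j).factorial : ℝ) * (9 / 4) ^ j := by
      intro k h5 h6
      refine (per2 13 (fun j => c (k.succAbove j).succ) fun j => d (k.succAbove j).succ).trans ?_
      have h7 : ∏ j : Fin 13, (C (c (k.succAbove j).succ) * X + C (d (k.succAbove j).succ)) =
          ∑ m ∈ range 6, C ((-c k.succ) ^ m) * X ^ m := by
        rw [Fin.prod_univ_succAbove _ k, hd k, ← h6] at hP
        refine mul_left_cancel₀ (a := C (c k.succ) * X + C 1) (fun h => ?_) (hP.trans ?_)
        · simpa using congrArg (eval 0) h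
        · simp [sum_range_succ]
          ring
      rw [h7]
      simp only [finsetSum_coeff, coeff_C_mul_X_pow]
      simp [sum_range_succ, h5]
      norm_num
    rw [per2, Fin.prod_univ_succ, hP, Fin.sum_univ_succ, Fin.sum_univ_succ, Fin.sum_univ_succ,
      Fin.sum_univ_succ, Fin.sum_univ_succ, Fin.sum_univ_succ, h4, h4, h4, h4, h4, h4]
    · have h5 : (C (c 0) * X + C (d 0)) * (1 - C ((3 / 2) ^ 6) * X ^ 6) =
          X ^ 1 - C ((3 / 2) ^ 6) * X ^ 7 := by
        simp [c, d]
        ring
      rw [h5, sum_eq_zero (s := (univ : Finset (Fin 8))) fun k _ => by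
        fin_cases k <;> simp [c, d]]
      simp only [coeff_sub, coeff_C_mul_X_pow, coeff_X_pow]
      simp [sum_range_succ, c, d, hn]
      norm_num [Nat.factorial]
    all_goals simp [c, hn]
    all_goals first
      | linear_combination (3 / 2) ^ 6 * (η ^ 3 + 1) * h3
      | linear_combination (3 / 2) ^ 6 * (η ^ 9 + η ^ 6 + η ^ 3 + 1) * h3
      | norm_num

end Pool.Agent.Results.MP_395ab6_co.Counter
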